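import Pool.Agent.H16.Thr

set_option autoImplicit false

namespace Pool.Agent.Results.MP_922b49_co.Yes

open Pool.Agent.H16.Thr

/-- The class of `(-1, 1, t)`-threshold graphs (finite graphs, on the vertex sets `Fin n`). -/
def C (t : ℝ) : Set (Σ n : ℕ, SimpleGraph (Fin n)) :=
  {G | ∃ r : Fin G.1 → ℝ, ∀ v w, v ≠ w →
    (G.2.Adj v w ↔ (-1 ≤ r v + r w ∧ r v + r w < 1) ∨ t ≤ r v + r w)}

theorem transfer {u t : ℝ} (h : C u ⊆ C t) {Z : Set ℝ} (hZ : Z.Finite) :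
    ∃ r s : ℝ → ℝ, ∀ x ∈ Z, ∀ y ∈ Z, (In u (x + y) ↔ In t (r x + s y)) := by
  classical
  have := hZ.fintype
  let E := Fintype.equivFin (Bool × Z)
  let G : SimpleGraph (Fin (Fintype.card (Bool × Z))) :=
    SimpleGraph.fromRel fun v w => In u ((E.symm v).2.1 + (E.symm w).2.1)
  have hG : ∀ v w, v ≠ w → (G.Adj v w ↔ In u ((E.symm v).2.1 + (E.symm w).2.1)) := by
    intro v w hvw
    simp only [G, SimpleGraph.fromRel_adj, add_comm (E.symm w).2.1, or_self]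
    exact and_iff_right hvw
  obtain ⟨R, hR⟩ := h (show (⟨_, G⟩ : Σ n : ℕ, SimpleGraph (Fin n)) ∈ C u from
    ⟨fun v => (E.symm v).2.1, hG⟩)
  refine ⟨fun x => if hx : x ∈ Z then R (E (true, ⟨x, hx⟩)) else 0,
    fun y => if hy : y ∈ Z then R (E (false, ⟨y, hy⟩)) else 0, fun x hx y hy => ?_⟩
  have hne : E (true, ⟨x, hx⟩) ≠ E (false, ⟨y, hy⟩) := by simp
  have h1 := hG _ _ hne
  simp only [Equiv.symm_apply_apply] at h1
  simp only [dif_pos hx, dif_pos hy]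
  exact h1.symm.trans (hR _ _ hne)

theorem le_of_sub {u t : ℝ} (h1 : 3.55 < u) (h2 : u < 3.7) (ht : 1 < t) (h : C u ⊆ C t) :
    u ≤ t := by
  by_contra hlt
  rw [not_le] at hlt
  obtain ⟨b, hb⟩ := exists_nat_gt (2 / (u - t) + 20)
  have hp : 0 < 2 / (u - t) := div_pos two_pos (by linarith)
  have hb1 : 2 < b * (u - t) := (div_lt_iff₀ (by linarith)).1 (by linarith)
  obtain ⟨a, ha1, ha2⟩ : ∃ a : ℕ, 2 * (a : ℝ) < b * (u - 1) ∧ b * (u - 1) ≤ 2 * a + 2 := by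
    have h3 : 0 < ⌈b * (u - 1) / 2⌉₊ := Nat.ceil_pos.2 (by nlinarith)
    obtain ⟨a, ha⟩ := Nat.exists_eq_succ_of_ne_zero h3.ne'
    have h4 := Nat.le_ceil (b * (u - 1) / 2)
    have h5 := Nat.ceil_lt_add_one (show (0 : ℝ) ≤ b * (u - 1) / 2 by nlinarith)
    rw [ha] at h4 h5
    push_cast at h4 h5
    exact ⟨a, by linarith, by linarith⟩
  have ha0 : (0 : ℝ) ≤ a := by positivity
  obtain ⟨d, hd⟩ : ∃ d : ℝ, d * (a + b) = b * (u - 1) - 2 * a :=
    ⟨_, div_mul_cancel₀ _ (by linarith)⟩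
  have d1 : 0 < d := by nlinarith
  have d2 : d < 0.1 := by nlinarith
  let P : Set ℝ := (fun k : ℕ => k * (2 + d)) '' Set.Iic a ∪
    (fun k : ℕ => k * (u - 1 - d)) '' Set.Iic b
  let O : Set ℝ := (fun k : ℤ => (k : ℝ) / 4) '' Set.Icc (-60) 60 ∪
    {-1 - d / 2, 1 + d / 2, u - 1 - d}
  have hP : P.Finite := ((Set.finite_Iic _).image _).union ((Set.finite_Iic _).image _)
  have hO : O.Finite := ((Set.finite_Icc _ _).image _).union (Set.toFinite _)
  obtain ⟨r, s, H⟩ := transfer h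
    ((hP.image2 (fun x y => x + y) hO).union (hP.image2 (fun x y => -x + y) hO))
  have K : ∀ x ∈ P, ∀ α ∈ O, ∀ β ∈ O, (In u (α + β) ↔ In t (r (x + α) + s (-x + β))) := by
    intro x hx α hα β hβ
    rw [← H _ (Or.inl ⟨x, hx, α, hα, rfl⟩) _ (Or.inr ⟨x, hx, β, hβ, rfl⟩)]
    congr! 1
    ring
  have m1 : ∀ i : ℤ, |i| ≤ 60 → (i : ℝ) / 4 ∈ O := fun i hi => Or.inl ⟨i, abs_le.1 hi, rfl⟩
  have kL : ∀ x ∈ P, r x + s (-x + (-1 - d / 2)) < -1 := fun x hx => by
    simpa using locL ht h1 h2 d1 d2 (fun α => r (x + α)) (fun β => s (-x + β))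
      (fun i j hi hj => K x hx _ (m1 i hi) _ (m1 j hj))
      fun i hi => K x hx _ (m1 i hi) _ (by simp [O])
  have kG : ∀ x ∈ P, 1 ≤ r x + s (-x + (1 + d / 2)) := fun x hx => by
    simpa using locG ht h1 h2 d1 d2 (fun α => r (x + α)) (fun β => s (-x + β))
      (fun i j hi hj => K x hx _ (m1 i hi) _ (m1 j hj))
      fun i hi => K x hx _ (m1 i hi) _ (by simp [O])
  have kU : ∀ x ∈ P, r (x + (u - 1 - d)) + s (-x + (1 + d / 2)) < t := fun x hx => by
    rcases nn (K x hx (u - 1 - d) (by simp [O]) (1 + d / 2) (by simp [O]))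
      (Or.inr (by linarith)) (by linarith) with h3 | h3
    · linarith
    · exact h3.2
  have c1 : ∀ k : ℕ, k ≤ a → r 0 + 2 * k ≤ r (k * (2 + d)) := by
    intro k
    induction k with
    | zero => simp
    | succ k ih =>
      intro hk
      have e1 := kL _ (Or.inl ⟨k, Nat.le_of_succ_le hk, rfl⟩)
      have e2 := kG _ (Or.inl ⟨k + 1, hk, rfl⟩)
      have e3 : -(((k + 1 : ℕ) : ℝ) * (2 + d)) + (1 + d / 2) = -(k * (2 + d)) + (-1 - d / 2) := by
        push_cast; ring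
      have e4 := ih (Nat.le_of_succ_le hk)
      simp only [e3] at e1 e2
      push_cast at e2 ⊢
      linarith
  have c2 : ∀ k : ℕ, k ≤ b → r (k * (u - 1 - d)) ≤ r 0 + k * (t - 1) := by
    intro k
    induction k with
    | zero => simp
    | succ k ih =>
      intro hk
      have e1 := kG _ (Or.inr ⟨k, Nat.le_of_succ_le hk, rfl⟩)
      have e2 := kU _ (Or.inr ⟨k, Nat.le_of_succ_le hk, rfl⟩)
      have e3 : ((k + 1 : ℕ) : ℝ) * (u - 1 - d) = k * (u - 1 - d) + (u - 1 - d) := by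
        push_cast; ring
      have e4 := ih (Nat.le_of_succ_le hk)
      rw [e3]
      push_cast
      simp only at e1 e2
      linarith
  have e1 := c1 a le_rfl
  have e2 := c2 b le_rfl
  rw [show (b : ℝ) * (u - 1 - d) = a * (2 + d) by linarith] at e2
  nlinarith

theorem result : ¬ (C '' Set.Ioi 1).Countable := by
  intro h
  have h1 : Set.Ioo (3.55 : ℝ) 3.7 ⊆ Set.Ioi 1 := fun x hx => by
    have := hx.1
    show (1 : ℝ) < x
    linarith
  have h2 : Set.InjOn C (Set.Ioo 3.55 3.7) := fun x hx y hy e =>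
    le_antisymm (le_of_sub hx.1 hx.2 (h1 hy) e.le) (le_of_sub hy.1 hy.2 (h1 hx) e.ge)
  have h3 := Set.countable_of_injective_of_countable_image h2 (h.mono (Set.image_mono h1))
  rw [Cardinal.Real.Ioo_countable_iff] at h3
  norm_num at h3

end Pool.Agent.Results.MP_922b49_co.Yes
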